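import Mathlib
import Pool.Agent.Lib.MP_8cd7cf_co.Counter

set_option autoImplicit false

namespace Pool.Agent.Results.MP_8cd7cf_co.Counterexample

/-- `X` is a minor of `G`: there are nonempty connected pairwise disjoint branch sets, one for each
vertex of `X`, with an edge of `G` between the branch sets of any two adjacent vertices of `X`. -/
def HasMinor {V U : Type} (G : SimpleGraph V) (X : SimpleGraph U) : Prop :=
  ∃ M : U → Set V, (∀ u, (G.induce (M u)).Connected) ∧
    (∀ u u', u ≠ u' → Disjoint (M u) (M u')) ∧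
    (∀ u u', X.Adj u u' → ∃ x ∈ M u, ∃ y ∈ M u', G.Adj x y)

/-- The join of the edgeless graph on `r` vertices with `H`. -/
def edgelessJoin (r : ℕ) {W : Type} (H : SimpleGraph W) : SimpleGraph (Fin r ⊕ W) :=
  SimpleGraph.fromRel fun a b =>
    (∃ i w, a = Sum.inl i ∧ b = Sum.inr w) ∨
      (∃ w w', a = Sum.inr w ∧ b = Sum.inr w' ∧ H.Adj w w')

/-- The claw: vertex 0 is adjacent to 1, 2, 3 and there are no other edges. -/
def claw : SimpleGraph (Fin 4) := SimpleGraph.fromRel fun a _ => a = 0

open Pool.Agent.Lib.MP_8cd7cf_co in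
theorem result :
    ∃ (V : Type) (_ : Fintype V) (G : SimpleGraph V) (L : V → Finset ℕ),
      ¬ HasMinor G (edgelessJoin 3 claw) ∧ (∀ v, (L v).card = 3 + 1) ∧
      ∀ c : V → ℕ, (∀ v, c v ∈ L v) →
        ∃ f : Fin 4 → V, Function.Injective f ∧ (∀ a b, claw.Adj a b → G.Adj (f a) (f b)) ∧
          ∀ a b, c (f a) = c (f b) := by
  refine ⟨Vx, inferInstance, G, lst, ?_, lst_card_eq, ?_⟩
  · rintro ⟨M, h1, h2, h3⟩
    apply no_model M h1 h2
    intro u v huv
    apply h3
    rw [edgelessJoin, SimpleGraph.fromRel_adj]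
    rcases u with u | u <;> rcases v with v | v
    · exact huv.elim
    · exact ⟨by simp, Or.inl (Or.inl ⟨u, v, rfl, rfl⟩)⟩
    · exact ⟨by simp, Or.inr (Or.inl ⟨v, u, rfl, rfl⟩)⟩
    · refine ⟨fun e => huv.1 (Sum.inr_injective e), Or.inl (Or.inr ⟨u, v, rfl, rfl, ?_⟩)⟩
      rw [claw, SimpleGraph.fromRel_adj]
      exact huv
  · intro c hc
    obtain ⟨v, x, y, z, hxy, hxz, hyz, hvx, hvy, hvz, cx, cy, cz⟩ := exists_star c hc
    have h1 := hvx.ne
    have h2 := hvy.ne
    have h3 := hvz.ne
    refine ⟨![v, x, y, z], ?_, ?_, ?_⟩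
    · have h4 := h1.symm
      have h5 := h2.symm
      have h6 := h3.symm
      have h7 := hxy.symm
      have h8 := hxz.symm
      have h9 := hyz.symm
      intro a b
      fin_cases a <;> fin_cases b <;> intro e <;> first | rfl | contradiction
    · intro a b h
      rw [claw, SimpleGraph.fromRel_adj] at h
      obtain ⟨hne, h0 | h0⟩ := h
      · subst h0
        fin_cases b
        · exact (hne rfl).elim
        · exact hvx
        · exact hvy
        · exact hvz
      · subst h0
        fin_cases a
        · exact (hne rfl).elim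
        · exact hvx.symm
        · exact hvy.symm
        · exact hvz.symm
    · have key : ∀ a : Fin 4, c (![v, x, y, z] a) = c v := by
        intro a
        fin_cases a
        · rfl
        · exact cx
        · exact cy
        · exact cz
      intro a b
      rw [key a, key b]

end Pool.Agent.Results.MP_8cd7cf_co.Counterexample
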