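import Mathlib
import Pool.Agent.Lib.MP_8cd7cf_co.TwoPole

set_option autoImplicit false

namespace Pool.Agent.Results.MP_8cd7cf_co.RankTwo

/-- `X` is a minor of the subgraph of `G` induced by `S`: there are nonempty connected pairwise
disjoint branch sets inside `S`, one for each vertex of `X`, with an edge of `G` between the branch
sets of any two adjacent vertices of `X`. -/
def HasMinorIn {V U : Type} (G : SimpleGraph V) (S : Set V) (X : SimpleGraph U) : Prop :=
  ∃ M : U → Set V, (∀ u, M u ⊆ S) ∧ (∀ u, (G.induce (M u)).Connected) ∧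
    (∀ u u', u ≠ u' → Disjoint (M u) (M u')) ∧
    (∀ u u', X.Adj u u' → ∃ x ∈ M u, ∃ y ∈ M u', G.Adj x y)

/-- The join of the edgeless graph on `r` vertices with `H`. -/
def edgelessJoin (r : ℕ) {W : Type} (H : SimpleGraph W) : SimpleGraph (Fin r ⊕ W) :=
  SimpleGraph.fromRel fun a b =>
    (∃ i w, a = Sum.inl i ∧ b = Sum.inr w) ∨
      (∃ w w', a = Sum.inr w ∧ b = Sum.inr w' ∧ H.Adj w w')

open Pool.Agent.Lib.MP_8cd7cf_co.TwoPole in
theorem result :
    ∀ (V : Type) [Fintype V] (G : SimpleGraph V) (L : V → Finset ℕ), (∀ v, 3 ≤ (L v).card) →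
      ∃ c : V → ℕ, (∀ v, c v ∈ L v) ∧
        ∀ (W : Type) (H : SimpleGraph W), H.Connected → (∃ a b, H.Adj a b) →
          ¬ HasMinorIn G Set.univ (edgelessJoin 2 H) →
          ∀ k : ℕ, ¬ HasMinorIn G {v | c v = k} H := by
  intro V _ G L hL
  obtain ⟨c, hc1, hc2⟩ := exists_colouring G L hL
  refine ⟨c, hc1, ?_⟩
  rintro W H hH ⟨a, b, hab⟩ hfree k ⟨M, m0, m1, m2, m3⟩
  apply hfree
  have hne : ∀ w, (M w).Nonempty := fun w => by
    obtain ⟨x⟩ := (m1 w).nonempty
    exact ⟨x.1, x.2⟩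
  have hsub : ∀ w, M w ⊆ ⋃ w, M w := fun w => Set.subset_iUnion M w
  obtain ⟨A, B, hA, hB, dAB, dA, dB, ⟨x0, hx0, y0, hy0, hxy0⟩, hnb⟩ :=
    hc2 (⋃ w, M w) (conn_iUnion hH M m1 m3)
      (by
        intro x hx y hy
        obtain ⟨w, hw⟩ := Set.mem_iUnion.1 hx
        obtain ⟨w', hw'⟩ := Set.mem_iUnion.1 hy
        have e1 : c x = k := m0 w hw
        have e2 : c y = k := m0 w' hw'
        rw [e1, e2])
      (by
        obtain ⟨x, hx, y, hy, hxy⟩ := m3 a b hab
        exact ⟨x, hsub a hx, y, hsub b hy, hxy.ne⟩)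
  have hP : ∀ (i : Fin 2) (w : W), ∃ x ∈ (![A, B] i : Set V), ∃ y ∈ M w, G.Adj x y := by
    intro i w
    obtain ⟨s, hs⟩ := hne w
    obtain ⟨⟨p, hp, hsp⟩, ⟨q, hq, hsq⟩⟩ := hnb s (hsub w hs)
    fin_cases i
    · exact ⟨p, hp, s, hs, hsp.symm⟩
    · exact ⟨q, hq, s, hs, hsq.symm⟩
  have hD : ∀ (i : Fin 2) (w : W), Disjoint (![A, B] i : Set V) (M w) := by
    intro i w
    fin_cases i
    · exact dA.mono_right (hsub w)
    · exact dB.mono_right (hsub w)
  refine ⟨Sum.elim ![A, B] M, fun _ => Set.subset_univ _, ?_, ?_, ?_⟩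
  · rintro (i | w)
    · fin_cases i
      · exact hA
      · exact hB
    · exact m1 w
  · rintro (i | w) (j | w') hne'
    · fin_cases i <;> fin_cases j
      · exact (hne' rfl).elim
      · exact dAB
      · exact dAB.symm
      · exact (hne' rfl).elim
    · exact hD i w'
    · exact (hD j w).symm
    · exact m2 w w' fun e => hne' (congrArg Sum.inr e)
  · rintro (i | w) (j | w') hadj
    · have hne' := hadj.ne
      fin_cases i <;> fin_cases j
      · exact (hne' rfl).elim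
      · exact ⟨x0, hx0, y0, hy0, hxy0⟩
      · exact ⟨y0, hy0, x0, hx0, hxy0.symm⟩
      · exact (hne' rfl).elim
    · exact hP i w'
    · obtain ⟨x, hx, y, hy, hxy⟩ := hP j w
      exact ⟨y, hy, x, hx, hxy.symm⟩
    · apply m3
      rw [edgelessJoin, SimpleGraph.fromRel_adj] at hadj
      obtain ⟨_, h | h⟩ := hadj
      · rcases h with ⟨i, j, h, _⟩ | ⟨p, q, h1, h2, h3⟩
        · cases h
        · cases h1; cases h2; exact h3
      · rcases h with ⟨i, j, h, _⟩ | ⟨p, q, h1, h2, h3⟩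
        · cases h
        · cases h1; cases h2; exact h3.symm

end Pool.Agent.Results.MP_8cd7cf_co.RankTwo
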